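import Pool.Agent.Helper93.UX.Defs
import Pool.Agent.Helper56.UG.Cv

/-!
# UX: long gaps are rare in the mean
-/

set_option autoImplicit false
open MeasureTheory Set Filter Topology
open Pool.Agent.Helper93.UG (zc IsOrd sp Glong Gshort)
open Pool.Agent.Helper93.UX

namespace Pool.Agent.Helper77.UX

/-- the set of the `t` with an empty window of length `x` -/
def Em (T x : ℝ) : Set ℝ := {t : ℝ | T / 2 ≤ t ∧ t ≤ 3 * T ∧ zc (Ico t (t + x * sp T)) = 0}

lemma Em_sub (T x : ℝ) : Em T x ⊆ Icc (T / 2) (3 * T) := fun _ ht => ⟨ht.1, ht.2.1⟩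

lemma Em_anti {T x y : ℝ} (hs : 0 ≤ sp T) (hxy : y ≤ x) : Em T x ⊆ Em T y := by
  intro t ht
  refine ⟨ht.1, ht.2.1, ?_⟩
  have h1 : t + y * sp T ≤ t + x * sp T := by
    have := mul_le_mul_of_nonneg_right hxy hs
    linarith
  have h2 : zc (Ico t (t + y * sp T)) ≤ zc (Ico t (t + x * sp T)) :=
    Pool.Agent.Helper56.UG.zc_mono (Ico_subset_Ico_right h1) Ico_subset_Icc_self
  rw [ht.2.2] at h2
  exact Nat.le_zero.1 h2

lemma Em_vol (T x : ℝ) : volume (Em T x) ≤ ENNReal.ofReal (5 / 2 * T) := by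
  refine (measure_mono (Em_sub T x)).trans ?_
  rw [Real.volume_Icc]
  exact ENNReal.ofReal_le_ofReal (by linarith)

lemma markov {T c A : ℝ} {q : ℕ} (hc : 0 < c)
    (hi : IntegrableOn (fun t => |(zc (Ico t (t + c * sp T)) : ℝ) - c| ^ (2 * q)) (Icc (T / 2) (3 * T)))
    (hA : ∫ t in Icc (T / 2) (3 * T), |(zc (Ico t (t + c * sp T)) : ℝ) - c| ^ (2 * q) ≤ A) :
    volume (Em T c) ≤ ENNReal.ofReal (A / c ^ (2 * q)) := by
  have h1 := mul_meas_ge_le_integral_of_nonneg (μ := volume.restrict (Icc (T / 2) (3 * T)))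
    (f := fun t => |(zc (Ico t (t + c * sp T)) : ℝ) - c| ^ (2 * q))
    (Eventually.of_forall fun t => by positivity) hi (c ^ (2 * q))
  have h2 : volume (Em T c) ≤ (volume.restrict (Icc (T / 2) (3 * T)))
      {t | c ^ (2 * q) ≤ |(zc (Ico t (t + c * sp T)) : ℝ) - c| ^ (2 * q)} := by
    refine le_trans (measure_mono ?_) (Measure.le_restrict_apply _ _)
    intro t ht
    refine ⟨?_, Em_sub T c ht⟩
    show c ^ (2 * q) ≤ |(zc (Ico t (t + c * sp T)) : ℝ) - c| ^ (2 * q)
    rw [ht.2.2, Nat.cast_zero, zero_sub, abs_neg, abs_of_pos hc]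
  refine h2.trans ?_
  rw [← ENNReal.ofReal_toReal (measure_ne_top (volume.restrict (Icc (T / 2) (3 * T))) _)]
  apply ENNReal.ofReal_le_ofReal
  rw [le_div_iff₀ (by positivity), mul_comm]
  exact h1.trans hA

/-- GM, from TX1 and the bounded gaps. -/
theorem gm_of (h : TX1) (hmg : ∃ B T₀ : ℝ, 0 < B ∧ ∀ t : ℝ, T₀ ≤ t → 0 < zc (Ico t (t + B))) : GM := by
  intro q
  obtain ⟨C, d, T₁, hC, hd, hTX⟩ := h (2 * q)
  obtain ⟨B, T₂, hB, hgap⟩ := hmg
  have hpi := Real.pi_pos
  -- the size of `T`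
  have hlog : Tendsto (fun T : ℝ => Real.log T) atTop atTop := Real.tendsto_log_atTop
  have hlo : ∀ᶠ y : ℝ in atTop, Real.log y ^ 2 ≤ d ^ 2 * y ∧ Real.log y ≤ d * y := by
    have h1 : (fun y : ℝ => Real.log y ^ 2) =o[atTop] (fun y : ℝ => y) := by
      have := isLittleO_log_rpow_atTop (r := 1 / 2) (by norm_num)
      have h2 := this.pow (n := 2) (by norm_num)
      refine h2.congr' (Eventually.of_forall fun y => rfl) ?_
      filter_upwards [eventually_ge_atTop (0 : ℝ)] with y hy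
      rw [← Real.rpow_natCast, ← Real.rpow_mul hy]
      norm_num
    have h3 := h1.bound (c := d ^ 2) (by positivity)
    have h4 := Real.isLittleO_log_id_atTop.bound (c := d) hd
    filter_upwards [h3, h4, eventually_ge_atTop (1 : ℝ)] with y h5 h6 hy
    rw [Real.norm_of_nonneg (by positivity), Real.norm_of_nonneg (by positivity)] at h5
    rw [Real.norm_of_nonneg (Real.log_nonneg hy), id, Real.norm_of_nonneg (by positivity)] at h6
    exact ⟨h5, h6⟩
  have hT := hlog.eventually (hlo.and (eventually_ge_atTop (Real.exp 1)))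
  obtain ⟨T₃, hT₃⟩ := eventually_atTop.1 hT
  obtain ⟨W, hW⟩ : ∃ W : ℝ, W = C * 4 ^ q := ⟨_, rfl⟩
  have hW0 : 0 < W := by rw [hW]; positivity
  refine ⟨5 / 2 + W * (1 + B / (2 * Real.pi)) ^ q, max (max T₁ (2 * T₂)) (max T₃ 1), by positivity,
    fun T hT x hx => ?_⟩
  have hT1 : T₁ ≤ T := ((le_max_left _ _).trans (le_max_left _ _)).trans hT
  have hT2 : 2 * T₂ ≤ T := ((le_max_right _ _).trans (le_max_left _ _)).trans hT
  have hT3 : T₃ ≤ T := ((le_max_left _ _).trans (le_max_right _ _)).trans hT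
  have hT4 : 1 ≤ T := ((le_max_right _ _).trans (le_max_right _ _)).trans hT
  have hT0 : 0 < T := by linarith
  obtain ⟨⟨h1, h2⟩, h3⟩ := hT₃ T hT3
  have hlT : 1 < Real.log T := by
    have := Real.exp_one_gt_d9
    linarith
  have hllT : 0 < Real.log (Real.log T) := Real.log_pos hlT
  have hsp : 0 < sp T := div_pos (by positivity) (by linarith)
  have hY : 1 ≤ (1 + B / (2 * Real.pi)) ^ q := one_le_pow₀ (by
    have : 0 < B / (2 * Real.pi) := by positivity
    linarith)
  -- the bound for short windows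
  have key : ∀ c : ℝ, 1 ≤ c → c ≤ d * (Real.log T / Real.log (Real.log T)) →
      volume (Em T c) ≤ ENNReal.ofReal (W / (c ^ 2) ^ q * T) := by
    intro c hc hc2
    obtain ⟨hi, hI⟩ := hTX T hT1 c hc hc2
    refine (markov (by linarith) hi hI).trans (ENNReal.ofReal_le_ofReal ?_)
    have hc0 : 0 < c := by linarith
    have h4 : Real.log (2 + c) ≤ 2 * c := by
      have := Real.log_le_sub_one_of_pos (show (0 : ℝ) < 2 + c by linarith)
      linarith
    have h5 : 0 ≤ Real.log (2 + c) := Real.log_nonneg (by linarith)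
    have h6 : Real.log (2 + c) ^ (2 * q) ≤ 4 ^ q * (c ^ 2) ^ q := by
      calc Real.log (2 + c) ^ (2 * q) ≤ (2 * c) ^ (2 * q) := by gcongr
        _ = 4 ^ q * (c ^ 2) ^ q := by
          rw [pow_mul, mul_pow, mul_pow]
          norm_num
    have h7 : c ^ (2 * (2 * q)) = (c ^ 2) ^ q * (c ^ 2) ^ q := by
      rw [← pow_mul, ← pow_add]
      congr 1
      ring
    rw [h7, hW]
    have h8 : 0 < (c ^ 2) ^ q := by positivity
    calc C * Real.log (2 + c) ^ (2 * q) * T / ((c ^ 2) ^ q * (c ^ 2) ^ q)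
        ≤ C * (4 ^ q * (c ^ 2) ^ q) * T / ((c ^ 2) ^ q * (c ^ 2) ^ q) := by gcongr
      _ = C * 4 ^ q / (c ^ 2) ^ q * T := by
        field_simp
  rcases le_or_gt x 1 with hx1 | hx1
  · refine (Em_vol T x).trans (ENNReal.ofReal_le_ofReal ?_)
    have h4 : 0 < x ^ q := by positivity
    have h5 : x ^ q ≤ 1 := pow_le_one₀ hx.le hx1
    have h6 : 5 / 2 ≤ (5 / 2 + W * (1 + B / (2 * Real.pi)) ^ q) / x ^ q := by
      rw [le_div_iff₀ h4]
      have : 0 < W * (1 + B / (2 * Real.pi)) ^ q := by positivity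
      nlinarith
    exact mul_le_mul_of_nonneg_right h6 hT0.le
  rcases le_or_gt x (d * (Real.log T / Real.log (Real.log T))) with hx2 | hx2
  · refine (key x hx1.le hx2).trans (ENNReal.ofReal_le_ofReal ?_)
    have h4 : 0 < x ^ q := by positivity
    have h5 : x ^ q ≤ (x ^ 2) ^ q := by
      refine pow_le_pow_left₀ hx.le ?_ _
      nlinarith
    have h6 : W / (x ^ 2) ^ q ≤ (5 / 2 + W * (1 + B / (2 * Real.pi)) ^ q) / x ^ q := by
      refine div_le_div₀ (by positivity) ?_ h4 h5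
      nlinarith
    exact mul_le_mul_of_nonneg_right h6 hT0.le
  rcases le_or_gt B (x * sp T) with hx3 | hx3
  · have h4 : Em T x = ∅ := by
      rw [Set.eq_empty_iff_forall_notMem]
      intro t ht
      have h5 : 0 < zc (Ico t (t + B)) := hgap t (by linarith [ht.1])
      have h6 : zc (Ico t (t + B)) ≤ zc (Ico t (t + x * sp T)) :=
        Pool.Agent.Helper56.UG.zc_mono (Ico_subset_Ico_right (by linarith)) Ico_subset_Icc_self
      rw [ht.2.2] at h6
      omega
    show volume (Em T x) ≤ _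
    rw [h4, measure_empty]
    exact zero_le
  · obtain ⟨X, hX⟩ : ∃ X : ℝ, X = d * (Real.log T / Real.log (Real.log T)) := ⟨_, rfl⟩
    rw [← hX] at hx2
    have hX1 : 1 ≤ X := by
      rw [hX, ← mul_div_assoc, le_div_iff₀ hllT]
      linarith
    have hX2 : Real.log T ≤ X ^ 2 := by
      rw [hX, ← mul_div_assoc, div_pow, le_div_iff₀ (by positivity), mul_pow]
      nlinarith
    have h4 : volume (Em T x) ≤ ENNReal.ofReal (W / (X ^ 2) ^ q * T) :=
      (measure_mono (Em_anti hsp.le hx2.le)).trans (key X hX1 hX.le)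
    refine h4.trans (ENNReal.ofReal_le_ofReal ?_)
    have h5 : x < (B / (2 * Real.pi)) * Real.log T := by
      unfold sp at hx3
      rw [← mul_div_assoc, div_lt_iff₀ (by linarith)] at hx3
      rw [div_mul_eq_mul_div, lt_div_iff₀ (by positivity)]
      exact hx3
    have h6 : x ≤ (1 + B / (2 * Real.pi)) * X ^ 2 := by
      have h7 : 0 < B / (2 * Real.pi) := by positivity
      have h8 : (B / (2 * Real.pi)) * Real.log T ≤ (B / (2 * Real.pi)) * X ^ 2 :=
        mul_le_mul_of_nonneg_left hX2 h7.le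
      nlinarith
    have h9 : x ^ q ≤ (1 + B / (2 * Real.pi)) ^ q * (X ^ 2) ^ q := by
      rw [← mul_pow]
      exact pow_le_pow_left₀ hx.le h6 _
    have h10 : 0 < (X ^ 2) ^ q := by positivity
    have h11 : 0 < x ^ q := by positivity
    have h12 : W / (X ^ 2) ^ q ≤ (5 / 2 + W * (1 + B / (2 * Real.pi)) ^ q) / x ^ q := by
      rw [div_le_div_iff₀ h10 h11]
      have h13 := mul_le_mul_of_nonneg_left h9 hW0.le
      nlinarith
    exact mul_le_mul_of_nonneg_right h12 hT0.le

end Pool.Agent.Helper77.UX
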